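import Mathlib

namespace Pool.Agent.Results.MP_69f3e4_an.RegClosed

open Set Filter Topology

set_option maxHeartbeats 400000

/-- The achievement set (set of subsums) of a sequence in the plane. -/
def Ach (v : ℕ → EuclideanSpace ℝ (Fin 2)) : Set (EuclideanSpace ℝ (Fin 2)) :=
  {s | ∃ A : Set ℕ, HasSum (A.indicator v) s}

theorem summ {v : ℕ → EuclideanSpace ℝ (Fin 2)} (hv : Summable fun n => ‖v n‖) (A : Set ℕ) :
    Summable (A.indicator v) := hv.of_norm.indicator A

theorem closed {v : ℕ → EuclideanSpace ℝ (Fin 2)} (hv : Summable fun n => ‖v n‖) :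
    IsClosed (Ach v) := by
  classical
  have h1 : Continuous fun e : ℕ → Bool => ∑' i, if e i then v i else 0 := by
    refine continuous_tsum (fun i => ?_) hv fun i e => ?_
    · exact (continuous_of_discreteTopology (f := fun b : Bool => if b then v i else 0)).comp
        (continuous_apply i)
    · split_ifs <;> simp
  have h2 : Ach v = range fun e : ℕ → Bool => ∑' i, if e i then v i else 0 := by
    ext s
    constructor
    · rintro ⟨A, hA⟩
      refine ⟨fun i => decide (i ∈ A), ?_⟩
      rw [← hA.tsum_eq]
      exact tsum_congr fun i => by by_cases h : i ∈ A <;> simp [h]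
    · rintro ⟨e, rfl⟩
      refine ⟨{i | e i = true}, ?_⟩
      have : (fun i => if e i = true then v i else 0) = {i | e i = true}.indicator v := by
        funext i; by_cases h : e i = true <;> simp [h]
      simp only [this]
      exact (summ hv _).hasSum
  rw [h2]; exact (isCompact_range h1).isClosed

theorem step {v : ℕ → EuclideanSpace ℝ (Fin 2)} (hv : Summable fun n => ‖v n‖)
    (h : (interior (Ach v)).Nonempty) : (interior (Ach fun n => v (n + 1))).Nonempty := by
  have hc := closed (v := fun n => v (n + 1)) ((summable_nat_add_iff 1).2 hv)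
  set E := Ach fun n => v (n + 1)
  have h1 : Ach v ⊆ E ∪ (fun y => y - v 0) ⁻¹' E := by
    rintro s ⟨A, hA⟩
    have h2 := (hasSum_nat_add_iff' 1).2 hA
    rw [Finset.sum_range_one] at h2
    have h3 : (fun n => A.indicator v (n + 1)) =
        {n | n + 1 ∈ A}.indicator fun n => v (n + 1) := by
      funext n; by_cases h : n + 1 ∈ A <;> simp [h]
    rw [h3] at h2
    by_cases h0 : 0 ∈ A
    · rw [indicator_of_mem h0] at h2; exact Or.inr ⟨_, h2⟩
    · rw [indicator_of_notMem h0, sub_zero] at h2; exact Or.inl ⟨_, h2⟩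
  by_contra hne
  rw [not_nonempty_iff_eq_empty] at hne
  have h4 : interior ((fun y => y - v 0) ⁻¹' E) = ∅ := by
    have := (Homeomorph.subRight (v 0)).preimage_interior E
    rw [hne] at this
    exact this.symm
  have h5 := interior_mono h1
  rw [interior_union_isClosed_of_interior_empty hc h4, hne] at h5
  exact (h.mono h5).ne_empty rfl

theorem result (v : ℕ → EuclideanSpace ℝ (Fin 2)) (hv : Summable fun n => ‖v n‖) :
    Ach v = closure (interior (Ach v)) ∨ interior (closure (Ach v)) = ∅ := by
  rw [(closed hv).closure_eq]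
  rcases (interior (Ach v)).eq_empty_or_nonempty with h | h
  · exact Or.inr h
  left
  have h1 : ∀ k, (interior (Ach fun n => v (n + k))).Nonempty := by
    intro k
    induction k with
    | zero => exact h
    | succ k ih =>
      have := step ((summable_nat_add_iff k).2 hv) ih
      simpa only [add_assoc, add_comm 1 k] using this
  refine Subset.antisymm ?_ (closure_minimal interior_subset (closed hv))
  rintro s ⟨A, hA⟩
  rw [Metric.mem_closure_iff]
  intro ε hε
  have t1 := (tendsto_sum_nat_add fun n => ‖v n‖).eventually_lt_const (half_pos hε)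
  have t2 := (Metric.tendsto_nhds.1 hA.tendsto_sum_nat) _ (half_pos hε)
  obtain ⟨k, k1, k2⟩ := (t1.and t2).exists
  set f := ∑ i ∈ Finset.range k, A.indicator v i with hf
  obtain ⟨y, hy⟩ := h1 k
  have h2 : (fun z => z - f) ⁻¹' (Ach fun n => v (n + k)) ⊆ Ach v := by
    rintro z ⟨B, hB⟩
    refine ⟨{n | (n < k ∧ n ∈ A) ∨ (k ≤ n ∧ n - k ∈ B)}, (hasSum_nat_add_iff' k).1 ?_⟩
    have e1 : ∑ i ∈ Finset.range k,
        {n | (n < k ∧ n ∈ A) ∨ (k ≤ n ∧ n - k ∈ B)}.indicator v i = f := by
      refine Finset.sum_congr rfl fun i hi => ?_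
      have hi := Finset.mem_range.1 hi
      by_cases h : i ∈ A <;> simp [indicator, h, hi, hi.not_ge]
    have e2 : (fun n => {n | (n < k ∧ n ∈ A) ∨ (k ≤ n ∧ n - k ∈ B)}.indicator v (n + k)) =
        B.indicator fun n => v (n + k) := by
      funext n; by_cases h : n ∈ B <;> simp [indicator, h]
    rw [e1, e2]; exact hB
  refine ⟨y + f, interior_mono h2 ?_, ?_⟩
  · have := (Homeomorph.subRight f).preimage_interior (Ach fun n => v (n + k))
    refine this ▸ ?_
    simpa using hy
  · obtain ⟨B, hB⟩ := interior_subset hy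
    have h3 : ‖y‖ ≤ ∑' n, ‖v (n + k)‖ :=
      hB.norm_le_of_bounded ((summable_nat_add_iff k).2 hv).hasSum
        fun n => norm_indicator_le_norm_self _ _
    have h4 := dist_triangle s f (y + f)
    rw [dist_comm] at k2
    have h5 : dist f (y + f) = ‖y‖ := by simp [dist_eq_norm]
    linarith

end Pool.Agent.Results.MP_69f3e4_an.RegClosed
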